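import Pool.Agent.L7h82.VV.Comp
import Pool.Agent.L7h82.VV.CompD

/-!
# Vassiliev invariants and the complex volumes of connected sums

Oriented knots are given by sliced diagrams (`Pool.Agent.H835R2.Knot.Defs`: `Word`, `IsKnot`,
`Isotopic`, `IsInvariant`, `DegreeLE`, the last one in Vassiliev's sense, by alternating sums over
crossing changes).

* `PolComplexVolume K M D V C` (`Pool.Agent.L7h82.VV.RingD`): `D` is a diagram of a knot which is the
  closure of `(s_1 s_2 s_1)^{2 m} T_1 U_1 ⋯ T_k U_k` (`2 k ≥ 2` arborescent tangles of weighted trees in
  a ring, `m ≥ 0` full twists; for `m = 0`, `k ≥ 3` Conway's basic polyhedron `(2 k)*` with the tangles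
  substituted for the vertices), or of its mirror image; the roots of the trees have at most `d`
  children and weights of absolute value at least `M d`, for some `d`, and the other vertices (`n`
  neighbours, weight `a`) are large, `K² ≤ n² + a²`, or small, no two small ones being neighbours; and
  `V + i C` is the complex volume `vol + i CS` of the complement modulo `i π²`: `V` is the maximal volume
  of the angle structures of an ideal decomposition, `C` is given by Neumann's formula with the extended
  Rogers dilogarithm, for every flattening
  (`Pool.Agent.Results.MP_f66dee_gt.PolyhedralLinksComplexVolume`).
* `ArbComplexVolume K D V C`: the same for the arborescent knots whose trees have only vertices with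
  weights of absolute value at least `16` or at least `32` neighbours; or only large and small vertices
  (or clasps), no two of the latter being neighbours.
* `IsSum D₁ D₂ D` (`Pool.Agent.L7h82.VV.CloD`): `D` is a connected sum of `D₁` and `D₂`.
* `CompositeComplexVolume K M D V C` (`Pool.Agent.L7h82.VV.CompD`): `D` is a connected sum of any number
  of such knots (and unknots), and `V + i C` is the sum of their complex volumes.

The proof: the coloured Jones polynomials of odd colour of every knot, with their framing factors, are
computed from the diagram cut open at a point (`Pool.Agent.L7h82.VV.Cut`, Schur's lemma), they are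
multiplicative and determined by the rational Vassiliev invariants, and for the summands their growth at
the roots of unity `exp (2 π i / N)` is known.
-/

set_option autoImplicit false

namespace Pool.Agent.Results.MP_31fd3b_gt.CompositeComplexVolume

open Pool.Agent.H835R2.Knot Pool.Agent.L7h82.VV

/-- **Vassiliev invariants determine the complex volumes of these composite knots.**  There are `K` and
`M` such that:
(1) Every knot of the class `PolKnot K M` (the knots on the polyhedra `(2 k)*` above) has a complex
volume `V + i C`.  (For the arborescent class this is part of the starting result `HyperbolicVolume`.)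
(2) Let `D` and `E` be knots which are connected sums of any numbers of knots of the two classes, with
the complex volumes `V + i C` and `W + i C'`.  If `V ≠ W` or `C ≢ C' mod π²`, then `D` and `E` are
separated by a Vassiliev invariant with rational values.  (With `D = E` this says that the total complex
volume modulo `i π²` does not depend on the choices, for instance on the decomposition.) -/
theorem result : ∃ (K : ℕ) (M : ℕ → ℕ),
    (∀ D : Word, PolKnot K M D → ∃ V C : ℝ, PolComplexVolume K M D V C) ∧
    ∀ (D E : Word) (V C W C' : ℝ), CompositeComplexVolume K M D V C →
      CompositeComplexVolume K M E W C' → (V ≠ W ∨ ∀ k : ℤ, C ≠ C' + k * Real.pi ^ 2) →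
      ∃ (n : ℕ) (w : Word → ℚ), IsInvariant w ∧ DegreeLE n w ∧ w D ≠ w E := by
  obtain ⟨K, M, h1, h2⟩ := composite_main
  exact ⟨K, M, h1, fun D E V C W C' hD hE hne => growX_unique (h2 D V C hD) (h2 E W C' hE) hne⟩

end Pool.Agent.Results.MP_31fd3b_gt.CompositeComplexVolume
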