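import Pool.Agent.L7h82.VV.Tower
import Pool.Agent.L7h82.VV.TowerD

/-!
# Vassiliev invariants and the simplicial volumes of connected sums and towers of cables

Oriented knots are given by sliced diagrams (`Pool.Agent.H835R2.Knot.Defs`: `Word`, `IsKnot`,
`Isotopic`, `IsInvariant`, `DegreeLE`, the last one in Vassiliev's sense, by alternating sums over
crossing changes).

`HasVolume K M D V` (`Pool.Agent.L7h82.VV.TowerD`) is the smallest class of knots `D` with real numbers
`V` such that:
* the unknot is in the class, with `V = 0`;
* the knots of the two classes `Volumes K M` (`Pool.Agent.N566.VV.Knots`) are in the class, with their
  hyperbolic volumes: the arborescent knots whose weighted tree has only vertices of weight at least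
  `16` in absolute value or with at least `32` neighbours, or only large vertices (`K² ≤ n² + a²`, `n`
  neighbours, weight `a`) and isolated small ones; and the closures of
  `(s_1 s_2 s_1)^{2 m} T_1 U_1 ⋯ T_k U_k` (for `m = 0` the polyhedra `(2 k)*` with arborescent tangles
  substituted for the vertices), where for some `d` the roots of the trees have at most `d` children
  and weights of absolute value at least `M d`, the other vertices being large or small, isolated;
  the volume is the maximum of the volumes of the angle structures (which is the hyperbolic volume, by
  Casson, Rivin, Hodgson and Thurston);
* it is closed under connected sums (`IsSum`), and the volumes are added;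
* towers: if the closure of the braid word `w` is a knot in the class of volume `V`, and `l` is a
  nonempty list of floors `(m, s)`, `s` odd, then the knot obtained by doing for every floor, from the
  bottom to the top, a connected sum with `m` figure-eight knots followed by the `(2, s)`-cable
  (`tower`, `cableWord`), is in the class, with the volume `V + (number of figure-eight knots) · v(4_1)`,
  if on every floor `V + m · v(4_1) > c` and `m ≥ 1`, and on the bottom floor
  `V + m · v(4_1) > c + v(4_1)`, where `c = 2^{r+2} π log 2 · |w|` for `r` floors over the closure of `w`
  (`c = 0` over the unknot, `w = []`, where this means `m ≥ 1` and on the bottom floor `m ≥ 2`).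
So `V` is the simplicial volume (the sum of the volumes of the hyperbolic pieces of the JSJ
decomposition of the complement): it is additive under connected sums and does not change under cabling
(Gromov, Soma).

The proof: the Kashaev invariants of every knot, at the roots of unity of odd order, are determined by
the rational Vassiliev invariants (`Pool.Agent.L7h82.VV.Cut`: the coloured Jones polynomials from a
diagram cut open at a point), they are multiplicative, and for these knots they grow as predicted by the
volume conjecture.
-/

set_option autoImplicit false

namespace Pool.Agent.Results.MP_31fd3b_gt.SimplicialVolume

open Pool.Agent.H835R2.Knot Pool.Agent.L7h82.VV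

/-- **Vassiliev invariants determine the simplicial volumes of these knots.**  There are `K` and `M`
such that any two knots of the class `HasVolume K M` with different simplicial volumes `V ≠ W` are
separated by a Vassiliev invariant with rational values. -/
theorem result : ∃ (K : ℕ) (M : ℕ → ℕ), ∀ (D E : Word) (V W : ℝ), HasVolume K M D V →
    HasVolume K M E W → V ≠ W →
    ∃ (n : ℕ) (w : Word → ℚ), IsInvariant w ∧ DegreeLE n w ∧ w D ≠ w E :=
  volume_main

end Pool.Agent.Results.MP_31fd3b_gt.SimplicialVolume
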