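import Pool.Agent.L7h82.VV.Tower
import Pool.Agent.L7h82.VV.TowerD
import Pool.Agent.L7h82.VV.Open
import Pool.Agent.L7h82.VV.SmallD

/-!
# Vassiliev invariants separate knots with small diagrams from knots of large simplicial volume

Oriented knots are given by sliced diagrams (`Pool.Agent.H835R2.Knot.Defs`: `Word`, `IsKnot`,
`Isotopic`, `IsInvariant`, `DegreeLE`, the last one in Vassiliev's sense, by alternating sums over
crossing changes).

**The first knot** `D` is arbitrary.  `HasBound D B` (`Pool.Agent.L7h82.VV.SmallD`): `D` is the closure
of a (1,1)-tangle diagram, given by the list of its maxima, minima and twist regions (rows of `m ≥ 1`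
equal crossings of two neighbouring strands), divided into an upper part `L₁` and a lower part `L₂`, and
`B` is the sum of the following contributions.  A twist region of `m` crossings contributes
`rate m = min (m v_8) (10 v_3)`, where `v_3 = 1.0149…`, `v_8 = 3.6638…` are the volumes of the regular
ideal tetrahedron and octahedron.  This is improved near the ends: the open strand is followed
downwards from above in `L₁` as long as it passes under; these crossings (if they are regions with
`m = 1`) contribute `0`, and the first one where it passes over contributes `2 v_3`.  Similarly the
strand is followed upwards from below in `L₂` as long as it passes over; these crossings contribute `0`,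
and the first one where it passes under contributes `2 v_3`.  So every knot has such bounds, for all
its diagrams: the sum of the contributions of all twist regions, which is at most
`10 v_3 · (number of twist regions)` and at most `v_8 · (number of crossings)` (the parts (1) and (2) of
the theorem); and it is improved by a choice of the point where the diagram is cut open, for instance
to `(c - 4) v_8 + 4 v_3` for alternating diagrams with `c` crossings.

**The second knot** `E` is in the class `HasVolume K M` of `Pool.Agent.L7h82.VV.TowerD`, with the
simplicial volume `W` (the sum of the volumes of the hyperbolic pieces of the complement).  The class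
contains the unknot, arborescent knots whose weighted tree has only vertices of weight at least `16` in
absolute value or with at least `32` neighbours, or only large vertices (`K² ≤ n² + a²`) and isolated
small ones, the closures of `(s_1 s_2 s_1)^{2 m} T_1 U_1 ⋯ T_k U_k` (for `m = 0` the polyhedra `(2 k)*` with
tangles of similar trees), connected sums, and towers of `(2, s)`-cables of connected sums with
figure-eight knots.

The proof: the Kashaev invariants at the roots of unity of odd order of every knot are determined by the
rational Vassiliev invariants (`Pool.Agent.L7h82.VV.Cut`); their growth rate is at most `B` for the knot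
`D`, and it is `W` for the knot `E`.
-/

set_option autoImplicit false

namespace Pool.Agent.Results.MP_31fd3b_gt.SmallDiagrams

open Pool.Agent.H835R2.Knot Pool.Agent.L7h82.VV

/-- **Small diagrams and large volumes.**
(1) Every knot diagram, given by its blocks, has as a bound the sum of the contributions of its twist
regions.
(2) Every knot diagram `D` with `c` crossings has a bound `B ≤ c v_8`.
(3) There are `K` and `M` such that the following holds.  Let `D` be an arbitrary knot, with the bound
`B`, and let `E` be a knot of the class `HasVolume K M` with the simplicial volume `W > B`.  Then `D`
and `E` are separated by a Vassiliev invariant with rational values. -/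
theorem result :
    (∀ L : List Block, (∀ i σ, Block.twist i σ 0 ∉ L) → IsKnot (blocks L) →
      HasBound (blocks L) (L.map Block.rate).sum) ∧
    (∀ D : Word, IsKnot D → ∃ B : ℝ, HasBound D B ∧ B ≤ crossings D * v8) ∧
    ∃ (K : ℕ) (M : ℕ → ℕ), ∀ (D E : Word) (B W : ℝ), HasBound D B →
      HasVolume K M E W → B < W →
      ∃ (n : ℕ) (w : Word → ℚ), IsInvariant w ∧ DegreeLE n w ∧ w D ≠ w E := by
  obtain ⟨K, M, h⟩ := growR_class
  exact ⟨fun L h0 hk => hasBound_blocks h0 hk, fun D hk => hasBound_crossings hk,
    K, M, fun D E B W hD hE hlt => sep_of_upB (upB_of hD) (h E W hE).2 hlt⟩

end Pool.Agent.Results.MP_31fd3b_gt.SmallDiagrams
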