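import Pool.Agent.L7h82.VV.Tower
import Pool.Agent.L7h82.VV.TowerD
import Pool.Agent.L7h82.VV.Cov
import Pool.Agent.L7h82.VV.CovD

/-!
# Vassiliev invariants and the vertex covers of arborescent knots

Oriented knots are given by sliced diagrams (`Pool.Agent.H835R2.Knot.Defs`: `Word`, `IsKnot`,
`Isotopic`, `IsInvariant`, `DegreeLE`, the last one in Vassiliev's sense, by alternating sums over
crossing changes).

The arborescent knots are given by weighted planar trees (`Pool.Agent.TH563.UV.Arb`: `Tree`,
`AngleTree`, `IsAngle`, `vol`); a vertex can carry a crossing circle.  `AddCircles`, `edges`, `Heavy` and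
`octahedron` (the volume `v_8 = 3.66…` of the regular ideal octahedron) are in
`Pool.Agent.TH563.UB.ArbU`; `Small`, `Clasp`, `Cover`, `star` and `total` in `Pool.Agent.N561.COV.ArbC`;
`Fills` in `Pool.Agent.N561.COV.ArbD`, `VertexCover` in `Pool.Agent.N561.COV.ArbW`; `HasVolume` in
`Pool.Agent.L7h82.VV.TowerD`; and in `Pool.Agent.L7h82.VV.CovD`:
* `Arborescent D t`: `D` is a diagram of the arborescent knot of the weighted tree `t` (without any
  condition for the weights), which has at least one edge, or of its mirror image;
* `CoverBound v D B`: `D` is a connected sum of any number of arborescent knots of trees `t_i`, and `B` is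
  the sum of the numbers `total v s_i`, where `s_i` is obtained from `t_i` by adding crossing circles
  which form a vertex cover: of two neighbouring vertices at least one has a crossing circle, and every
  vertex without crossing circle (`n` neighbours, weight `a`) satisfies `n + |a| ≥ 4`, or is a clasp
  (`n = 1`, `|a| = 2`) other than the root.

The proof: the Kashaev invariants at the roots of unity of odd order of every knot are determined by the
rational Vassiliev invariants and multiplicative (`Pool.Agent.L7h82.VV.Cut`, `Clo`, `SumG`); their growth
rate is at most `B` if `CoverBound v D B`, and it is the maximal volume of the angle structures for the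
arborescent knots with large weights in (4) and (5).
-/

set_option autoImplicit false

namespace Pool.Agent.Results.MP_31fd3b_gt.VertexCovers

open Pool.Agent.H835R2.Knot Pool.Agent.L7h82.VV
open Pool.Agent.TH563.UV.Arb Pool.Agent.TH563.UB.Arb Pool.Agent.N561.ArbC

/-- **Vassiliev invariants and vertex covers.**  There is a function `v n a = v n (-a)` with the following
properties.
(1) For a small vertex or a clasp, `v n a` is the maximal volume of the angle structures of the star (a
vertex of weight `a` without crossing circle, `n` neighbours with crossing circles).
(2) If the circles of `s`, obtained from `t` by adding circles, form a vertex cover, then `total v s`,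
the sum of `v n a` over the vertices without circle and of `2 v_8` over the edges with circles at both
ends, is at most `2 v_8` times the number of edges of `t`.
(3) There are `K` and `M` such that every knot `D` which is a connected sum of arborescent knots, with
the bound `B`, and every knot `E` of the class `HasVolume K M` with the simplicial volume `W > B` are
separated by a Vassiliev invariant with rational values.
(4) Let `s` be a tree with crossing circles, which form a vertex cover (`Cover s`).  Then `total v s` is
the maximal volume of the angle structures of the link of `s`.  For every `c < total v s` there is `M`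
such that the arborescent knots `E` obtained from `s` by replacing all crossing circles by weights of
absolute value at least `M` are separated, by Vassiliev invariants with rational values, from all
connected sums `D` of arborescent knots with a bound `B ≤ c`, in particular from all arborescent knots of
trees `t`, whatever their weights, with a vertex cover `s'` such that `total v s' ≤ c`.
(5) For every `n` there is `M` such that all arborescent knots `E` of trees `u` with at most `n` edges, all
whose weights have absolute value at least `M`, are separated by Vassiliev invariants with rational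
values from all arborescent knots `D` of trees with fewer edges than `u`, whatever their weights. -/
theorem result : ∃ v : ℕ → ℤ → ℝ, (∀ (n : ℕ) (a : ℤ), v n (-a) = v n a) ∧
    (∀ (n : ℕ) (a : ℤ), 1 ≤ n → (Small n a ∨ Clasp n a) →
      IsGreatest {W : ℝ | ∃ y : AngleTree, y.tree = star a n ∧ IsAngle y ∧ vol y = W} (v n a)) ∧
    (∀ s t : Tree, 1 ≤ t.children → AddCircles t s → VertexCover s →
      total v s ≤ 2 * octahedron * edges t) ∧
    (∃ (K : ℕ) (M : ℕ → ℕ), ∀ (D E : Word) (B W : ℝ), CoverBound v D B → HasVolume K M E W →
      B < W → ∃ (n : ℕ) (w : Word → ℚ), IsInvariant w ∧ DegreeLE n w ∧ w D ≠ w E) ∧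
    (∀ s : Tree, 1 ≤ s.children → Cover s →
      IsGreatest {W : ℝ | ∃ y : AngleTree, y.tree = s ∧ IsAngle y ∧ vol y = W} (total v s) ∧
      ∀ c : ℝ, 0 ≤ c → c < total v s → ∃ M : ℕ, ∀ t : Tree, Fills M s t →
        ∀ (D E : Word) (B : ℝ), CoverBound v D B → B ≤ c → Arborescent E t →
          ∃ (n : ℕ) (w : Word → ℚ), IsInvariant w ∧ DegreeLE n w ∧ w D ≠ w E) ∧
    ∀ n : ℕ, ∃ M : ℕ, ∀ (t u : Tree) (D E : Word), Arborescent D t → Arborescent E u →
      Heavy M u → edges u ≤ n → edges t < edges u →
        ∃ (n : ℕ) (w : Word → ℚ), IsInvariant w ∧ DegreeLE n w ∧ w D ≠ w E := by
  obtain ⟨v, h0, h1, h2, h3, h4, h5⟩ := cover_main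
  obtain ⟨K, M, h⟩ := growR_class
  exact ⟨v, h0, h1, h2, ⟨K, M, fun D E B W hD hE hlt => h3 D E B W hD (h E W hE).2 hlt⟩, h4, h5⟩

end Pool.Agent.Results.MP_31fd3b_gt.VertexCovers
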